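import Pool.Agent.W424.AR.Order

/-!
Increments of the crossing probabilities: bounded aspect ratio, heights, and the rectangles
`⌊L n⌋ × ⌊l n⌋`.
-/

set_option maxHeartbeats 1000000

namespace Pool.Agent.W424.AR

open H974 Finset Filter

/-- Increments in the height. -/
theorem height_eq {w h : ℤ} (hw : 1 ≤ w) (h0 : 0 ≤ h) :
    hh (1/2) w (h + 1) - hh (1/2) w h = DD (h + 1) (w - 1) := by
  have h1 := dualhalf (w := w) (h := h) (by omega) h0
  have h2 := dualhalf (w := w) (h := h + 1) (by omega) (by omega)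
  unfold DD
  linarith

/-- The order of the increments in the height. -/
theorem orderH (K : ℕ) (hK : 1 ≤ K) : ∃ c C : ℝ, 0 < c ∧ 0 < C ∧ ∀ w h : ℤ, 2 ≤ w → 1 ≤ h →
    w ≤ K * h → c * (1 - hh (1/2) w h) / w ≤ hh (1/2) w (h + 1) - hh (1/2) w h ∧
      hh (1/2) w (h + 1) - hh (1/2) w h ≤ C * (1 - hh (1/2) w h) / w := by
  obtain ⟨c, C, hc, hC, ho⟩ := order K hK
  refine ⟨c, 2 * C, hc, by positivity, ?_⟩
  intro w h hw h1 hwh
  have hKz : (1:ℤ) ≤ K := by exact_mod_cast hK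
  obtain ⟨h2, h3⟩ := ho (h + 1) (w - 1) (by omega) (by omega) (by nlinarith)
  rw [height_eq (by omega) (by omega)]
  rw [← dualhalf (by omega) (by omega)] at h2 h3
  have hn : 0 ≤ 1 - hh (1/2) w h := by
    have := hh_le_one (q := 1/2) (by norm_num) (by norm_num) w h
    linarith
  have hwr : (2:ℝ) ≤ (w:ℝ) := by exact_mod_cast hw
  push_cast at h2 h3
  constructor
  · refine le_trans ?_ h2
    apply div_le_div_of_nonneg_left (by positivity) (by linarith) (by linarith)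
  · refine h3.trans ?_
    rw [div_le_div_iff₀ (by linarith) (by linarith)]
    have := mul_nonneg hC.le hn
    nlinarith

/-- Bounded aspect ratio. -/
theorem bdd (K : ℕ) (hK : 1 ≤ K) : ∃ c C : ℝ, 0 < c ∧ 0 < C ∧ ∀ w h : ℤ, 2 ≤ w → 1 ≤ h →
    w ≤ K * h → h ≤ K * w → (c / h ≤ hh (1/2) w h - hh (1/2) (w + 1) h ∧
      hh (1/2) w h - hh (1/2) (w + 1) h ≤ C / h) ∧
    (c / w ≤ hh (1/2) w (h + 1) - hh (1/2) w h ∧ hh (1/2) w (h + 1) - hh (1/2) w h ≤ C / w) := by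
  obtain ⟨c1, C1, hc1, hC1, o1⟩ := order K hK
  obtain ⟨c2, C2, hc2, hC2, o2⟩ := orderH K hK
  obtain ⟨c3, hc3, -, r⟩ := rsw K hK
  obtain ⟨c4, hc4, rd⟩ := rsw_dual K hK
  refine ⟨min (c1 * c3) (c2 * c4), max C1 C2, by positivity, by positivity, ?_⟩
  intro w h hw h1 hwh hhw
  have hwr : (2:ℝ) ≤ (w:ℝ) := by exact_mod_cast hw
  have hhr : (1:ℝ) ≤ (h:ℝ) := by exact_mod_cast h1
  obtain ⟨a1, a2⟩ := o1 w h (by omega) h1 hhw
  obtain ⟨b1, b2⟩ := o2 w h hw h1 hwh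
  have e1 := r w h (by omega) h1 hwh
  have e2 := rd w h hw (by omega) hhw
  have e3 : hh (1/2) w h ≤ 1 := hh_le_one (by norm_num) (by norm_num) _ _
  have e4 : 0 ≤ hh (1/2) w h := hh_nonneg (by norm_num) (by norm_num) _ _
  refine ⟨⟨le_trans ?_ a1, a2.trans ?_⟩, ⟨le_trans ?_ b1, b2.trans ?_⟩⟩
  · apply div_le_div_of_nonneg_right _ (by linarith)
    exact (min_le_left _ _).trans (mul_le_mul_of_nonneg_left e1 hc1.le)
  · apply div_le_div_of_nonneg_right _ (by linarith)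
    calc C1 * hh (1/2) w h ≤ C1 * 1 := mul_le_mul_of_nonneg_left e3 hC1.le
      _ = C1 := mul_one _
      _ ≤ _ := le_max_left _ _
  · apply div_le_div_of_nonneg_right _ (by linarith)
    exact (min_le_right _ _).trans (mul_le_mul_of_nonneg_left e2 hc2.le)
  · apply div_le_div_of_nonneg_right _ (by linarith)
    calc C2 * (1 - hh (1/2) w h) ≤ C2 * 1 := mul_le_mul_of_nonneg_left (by linarith) hC2.le
      _ = C2 := mul_one _
      _ ≤ _ := le_max_right _ _

/-- Telescoping. -/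
theorem tele {f : ℕ → ℝ} {a b : ℕ} (hab : a ≤ b) {δ Δ : ℝ}
    (h : ∀ i, a ≤ i → i < b → δ ≤ f i - f (i + 1) ∧ f i - f (i + 1) ≤ Δ) :
    ((b:ℝ) - a) * δ ≤ f a - f b ∧ f a - f b ≤ ((b:ℝ) - a) * Δ := by
  induction b, hab using Nat.le_induction with
  | base => simp
  | succ b hab ih =>
    obtain ⟨h1, h2⟩ := ih (fun i hi hi2 => h i hi (by omega))
    obtain ⟨h3, h4⟩ := h b hab (by omega)
    push_cast
    constructor <;> linarith

/-- Floors. -/
theorem floors (K : ℕ) (hK : 1 ≤ K) {L : ℝ} (hL : 1 / (K:ℝ) ≤ L) (hL2 : L ≤ K) {n : ℕ}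
    (hn : 2 * K * 2 ≤ n) :
    (n:ℝ) / (2 * K) ≤ (⌊L * n⌋₊ : ℝ) ∧ (⌊L * n⌋₊ : ℝ) ≤ K * n ∧ 2 ≤ ⌊L * n⌋₊ := by
  have hKr : (1:ℝ) ≤ K := by exact_mod_cast hK
  have hnr : 2 * (K:ℝ) * 2 ≤ n := by exact_mod_cast hn
  have hL0 : 0 < L := lt_of_lt_of_le (by positivity) hL
  have h1 : (1 / (K:ℝ)) * n ≤ L * n := mul_le_mul_of_nonneg_right hL (Nat.cast_nonneg n)
  have h2 : (n:ℝ) / K ≤ L * n := by
    rw [div_eq_mul_inv, mul_comm, ← one_div]; exact h1
  have h3 := Nat.lt_floor_add_one (L * n)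
  have h4 : (n:ℝ) / K = n / (2 * K) + n / (2 * K) := by field_simp; ring
  have h5 : (2:ℝ) ≤ n / (2 * K) := by
    rw [le_div_iff₀ (by positivity)]; linarith
  have h6 : (n:ℝ) / (2 * K) ≤ (⌊L * n⌋₊ : ℝ) := by linarith
  refine ⟨h6, ?_, ?_⟩
  · refine (Nat.floor_le (by positivity)).trans ?_
    exact mul_le_mul_of_nonneg_right hL2 (Nat.cast_nonneg n)
  · have : (2:ℝ) ≤ (⌊L * n⌋₊ : ℝ) := h5.trans h6
    exact_mod_cast this

/-- Number of steps between two floors. -/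
theorem steps {L L' : ℝ} (hL0 : 0 ≤ L) (hLL : L < L') {n : ℕ} (hn : 2 / (L' - L) ≤ n) :
    ⌊L * n⌋₊ ≤ ⌊L' * n⌋₊ ∧ (L' - L) * n / 2 ≤ (⌊L' * n⌋₊ : ℝ) - ⌊L * n⌋₊ ∧
      (⌊L' * n⌋₊ : ℝ) - ⌊L * n⌋₊ ≤ 2 * ((L' - L) * n) := by
  have h0 : 0 < L' - L := by linarith
  have h1 : 2 ≤ (L' - L) * n := by
    rw [div_le_iff₀ h0] at hn; linarith
  have h2 := Nat.floor_le (show (0:ℝ) ≤ L * n by positivity)
  have h3 := Nat.lt_floor_add_one (L * n)
  have h4 := Nat.floor_le (show (0:ℝ) ≤ L' * n from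
    mul_nonneg (by linarith) (Nat.cast_nonneg n))
  have h5 := Nat.lt_floor_add_one (L' * n)
  refine ⟨Nat.floor_le_floor (mul_le_mul_of_nonneg_right hLL.le (Nat.cast_nonneg n)), ?_, ?_⟩
  · nlinarith
  · nlinarith

/-- The rectangles `⌊L n⌋ × ⌊l n⌋`. -/
theorem scaling (K : ℕ) (hK : 1 ≤ K) : ∃ c C : ℝ, 0 < c ∧ 0 < C ∧
    (∀ L L' l : ℝ, 1 / (K:ℝ) ≤ L → L < L' → L' ≤ K → 1 / (K:ℝ) ≤ l → l ≤ K →
      ∀ᶠ n : ℕ in atTop, c * (L' - L) ≤
        hh (1/2) ⌊L * n⌋₊ ⌊l * n⌋₊ - hh (1/2) ⌊L' * n⌋₊ ⌊l * n⌋₊ ∧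
        hh (1/2) ⌊L * n⌋₊ ⌊l * n⌋₊ - hh (1/2) ⌊L' * n⌋₊ ⌊l * n⌋₊ ≤ C * (L' - L)) ∧
    (∀ L l l' : ℝ, 1 / (K:ℝ) ≤ L → L ≤ K → 1 / (K:ℝ) ≤ l → l < l' → l' ≤ K →
      ∀ᶠ n : ℕ in atTop, c * (l' - l) ≤
        hh (1/2) ⌊L * n⌋₊ ⌊l' * n⌋₊ - hh (1/2) ⌊L * n⌋₊ ⌊l * n⌋₊ ∧
        hh (1/2) ⌊L * n⌋₊ ⌊l' * n⌋₊ - hh (1/2) ⌊L * n⌋₊ ⌊l * n⌋₊ ≤ C * (l' - l)) := by
  obtain ⟨c, C, hc, hC, hb⟩ := bdd (2 * K * K) (by nlinarith)
  have hKr : (1:ℝ) ≤ K := by exact_mod_cast hK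
  have hKz : (1:ℤ) ≤ K := by exact_mod_cast hK
  have asp : ∀ a b n : ℕ, (a:ℝ) ≤ K * n → (n:ℝ) / (2 * K) ≤ b → (a:ℤ) ≤ (2 * K * K : ℕ) * (b:ℤ) := by
    intro a b n h1 h2
    rw [div_le_iff₀ (by positivity)] at h2
    have h3 : (a:ℝ) ≤ (2 * K * K : ℕ) * (b:ℝ) := by
      push_cast
      nlinarith
    exact_mod_cast h3
  refine ⟨c / (2 * K), 4 * K * C, by positivity, by positivity, ?_, ?_⟩
  · intro L L' l hL hLL hL' hl hl'
    have hL0 : 0 < L := lt_of_lt_of_le (by positivity) hL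
    filter_upwards [eventually_ge_atTop (2 * K * 2), eventually_ge_atTop ⌈2 / (L' - L)⌉₊] with n n1 n2
    obtain ⟨a1, a2, a3⟩ := floors K hK hL (by linarith) n1
    obtain ⟨b1, b2, b3⟩ := floors K hK (L := L') (by linarith) hL' n1
    obtain ⟨d1, d2, d3⟩ := floors K hK hl hl' n1
    obtain ⟨s1, s2, s3⟩ := steps hL0.le hLL (n := n) ((Nat.le_ceil _).trans (by exact_mod_cast n2))
    generalize ⌊L * n⌋₊ = A at *
    generalize ⌊L' * n⌋₊ = B at *
    generalize ⌊l * n⌋₊ = H at *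
    have hHr : (2:ℝ) ≤ H := by exact_mod_cast d3
    have hn0 : (0:ℝ) < n := by
      have : 0 < n := by nlinarith
      exact_mod_cast this
    have key := tele (f := fun i : ℕ => hh (1/2) (i:ℤ) H) s1 (δ := c / H) (Δ := C / H) (by
      intro i hi hi2
      have h1 := (hb i H (by omega) (by omega) ?_ ?_).1
      · push_cast at h1 ⊢
        exact h1
      · have h2 : (i:ℝ) ≤ K * n := le_trans (by exact_mod_cast hi2.le) b2
        have h3 := asp i H n h2 d1
        exact_mod_cast h3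
      · have h2 : (n:ℝ) / (2 * K) ≤ i := a1.trans (by exact_mod_cast hi)
        have h3 := asp H i n d2 h2
        exact_mod_cast h3)
    obtain ⟨k1, k2⟩ := key
    have hLn : 0 < L' - L := by linarith
    constructor
    · refine le_trans ?_ k1
      calc c / (2 * K) * (L' - L) = ((L' - L) * n / 2) * (c / (K * n)) := by
            field_simp
        _ ≤ ((B:ℝ) - A) * (c / H) := by
            apply mul_le_mul s2 _ (by positivity) (le_trans (by positivity) s2)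
            exact div_le_div_of_nonneg_left hc.le (by linarith) d2
    · refine k2.trans ?_
      calc ((B:ℝ) - A) * (C / H) ≤ (2 * ((L' - L) * n)) * (C / (n / (2 * K))) := by
            apply mul_le_mul s3 _ (by positivity) (by positivity)
            exact div_le_div_of_nonneg_left hC.le (by positivity) d1
        _ = 4 * K * C * (L' - L) := by
            field_simp
            ring
  · intro L l l' hL hL' hl hll hl'
    have hl0 : 0 < l := lt_of_lt_of_le (by positivity) hl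
    filter_upwards [eventually_ge_atTop (2 * K * 2), eventually_ge_atTop ⌈2 / (l' - l)⌉₊] with n n1 n2
    obtain ⟨a1, a2, a3⟩ := floors K hK hl (by linarith) n1
    obtain ⟨b1, b2, b3⟩ := floors K hK (L := l') (by linarith) hl' n1
    obtain ⟨d1, d2, d3⟩ := floors K hK hL hL' n1
    obtain ⟨s1, s2, s3⟩ := steps hl0.le hll (n := n) ((Nat.le_ceil _).trans (by exact_mod_cast n2))
    generalize ⌊l * n⌋₊ = A at *
    generalize ⌊l' * n⌋₊ = B at *
    generalize ⌊L * n⌋₊ = W at *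
    have hWr : (2:ℝ) ≤ W := by exact_mod_cast d3
    have hn0 : (0:ℝ) < n := by
      have : 0 < n := by nlinarith
      exact_mod_cast this
    have key := tele (f := fun i : ℕ => -hh (1/2) W (i:ℤ)) s1 (δ := c / W) (Δ := C / W) (by
      intro i hi hi2
      have h1 := (hb W i (by omega) (by omega) ?_ ?_).2
      · push_cast at h1 ⊢
        constructor <;> linarith [h1.1, h1.2]
      · have h2 : (n:ℝ) / (2 * K) ≤ i := a1.trans (by exact_mod_cast hi)
        have h3 := asp W i n d2 h2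
        exact_mod_cast h3
      · have h2 : (i:ℝ) ≤ K * n := le_trans (by exact_mod_cast hi2.le) b2
        have h3 := asp i W n h2 d1
        exact_mod_cast h3)
    obtain ⟨k1, k2⟩ := key
    have e : -hh (1/2) W A - -hh (1/2) W B = hh (1/2) W B - hh (1/2) W A := by ring
    simp only [e] at k1 k2
    have hLn : 0 < l' - l := by linarith
    constructor
    · refine le_trans ?_ k1
      calc c / (2 * K) * (l' - l) = ((l' - l) * n / 2) * (c / (K * n)) := by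
            field_simp
        _ ≤ ((B:ℝ) - A) * (c / W) := by
            apply mul_le_mul s2 _ (by positivity) (le_trans (by positivity) s2)
            exact div_le_div_of_nonneg_left hc.le (by linarith) d2
    · refine k2.trans ?_
      calc ((B:ℝ) - A) * (C / W) ≤ (2 * ((l' - l) * n)) * (C / (n / (2 * K))) := by
            apply mul_le_mul s3 _ (by positivity) (by positivity)
            exact div_le_div_of_nonneg_left hC.le (by positivity) d1
        _ = 4 * K * C * (l' - l) := by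
            field_simp
            ring

end Pool.Agent.W424.AR
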