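import Pool.Agent.W424.NC.Win
import Pool.Agent.H973R3.H3.Markov
import Pool.Agent.H973R3.H3.Expl

/-!
A Harnack type inequality for the increments of crossing probabilities in the width of the
rectangle, by exploration of the left cluster, and bounds of the order of the increments.
-/

set_option maxHeartbeats 1000000

namespace Pool.Agent.W424.AR

open H974 H973S Finset

/-- The left cluster. -/
def LL (h : ℤ) (F : Finset Edg) (v : Vtx) : Prop :=
  ∃ y, (0 ≤ y ∧ y ≤ h) ∧ Reach (↑F : Set Edg) (0, y) v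

open Classical in
/-- The explored edges. -/
noncomputable def KK (S : Finset Edg) (h : ℤ) (F : Finset Edg) : Finset Edg :=
  S.filter (fun e => LL h F (src e) ∨ LL h F (tgt e))

theorem mem_KK {S : Finset Edg} {h : ℤ} {F : Finset Edg} {e : Edg} :
    e ∈ KK S h F ↔ e ∈ S ∧ (LL h F (src e) ∨ LL h F (tgt e)) := by
  classical
  unfold KK
  rw [Finset.mem_filter]

theorem LL_agree {S F F' : Finset Edg} {h : ℤ} (hF : F ⊆ S) (hF' : F' ⊆ S)
    (hK : F ∩ KK S h F = F' ∩ KK S h F) (v : Vtx) : LL h F v ↔ LL h F' v := by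
  unfold LL
  refine exists_congr fun y => and_congr_right fun hy => ?_
  apply agree (Ω := ↑S) (by exact_mod_cast hF) (by exact_mod_cast hF')
  intro e he hc
  have hK2 : e ∈ KK S h F := by
    rw [mem_KK]
    refine ⟨by exact_mod_cast he, ?_⟩
    rcases hc with hc | hc
    · exact Or.inl ⟨y, hy, hc⟩
    · exact Or.inr ⟨y, hy, hc⟩
  have h2 : e ∈ F ∩ KK S h F ↔ e ∈ F' ∩ KK S h F := by rw [hK]
  rw [Finset.mem_inter, Finset.mem_inter] at h2
  simp only [hK2, and_true] at h2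
  exact_mod_cast h2

theorem KK_agree {S F F' : Finset Edg} {h : ℤ} (hF : F ⊆ S) (hF' : F' ⊆ S)
    (hK : F ∩ KK S h F = F' ∩ KK S h F) : KK S h F' = KK S h F := by
  ext e
  rw [mem_KK, mem_KK, LL_agree hF hF' hK, LL_agree hF hF' hK]

/-- Crossings in terms of the left cluster. -/
theorem LRc_iff {w b h : ℤ} {F : Finset Edg} (hb : 0 < b) (_hbw : b ≤ w)
    (hF : F ⊆ LRE 0 w 0 h) : LRc 0 b 0 h F ↔ ∃ v : Vtx, b ≤ v.1 ∧ LL h F v := by
  constructor
  · rintro ⟨y, y', h1, h2, h3⟩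
    exact ⟨(b, y'), le_rfl, y, h1, h3.mono Set.inter_subset_left⟩
  · rintro ⟨v, hv, y, hy, hr⟩
    obtain ⟨y1, y2, h1, h2, h3, -⟩ := sub_LR (a := 0) (b := b) (c := 0) (d := h) hb
      (by
        intro x y hG h4 h5
        have := hF (Finset.mem_coe.mp hG)
        rw [mem_LRE_true] at this
        omega)
      (by
        intro x y hG h4 h5
        have := hF (Finset.mem_coe.mp hG)
        rw [mem_LRE_false] at this
        omega) hr le_rfl hv
    exact ⟨y1, y2, h1, h2, h3⟩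

/-- A crossing of the right part which avoids the left cluster. -/
theorem avoid {S F : Finset Edg} {a w h : ℤ} (_hF : F ⊆ S)
    (hY : ¬ ∃ v : Vtx, w + 1 ≤ v.1 ∧ LL h F v) (hZ : LRc a (w + 1) 0 h F) :
    LRc a (w + 1) 0 h (F \ KK S h F) := by
  obtain ⟨y, y', h1, h2, h3⟩ := hZ
  have hend : ¬ LL h F (w + 1, y') := fun hL => hY ⟨(w + 1, y'), le_rfl, hL⟩
  refine ⟨y, y', h1, h2, Reach.symm ?_⟩
  have h4 := h3.symm
  have key : ∀ v, Reach (↑F ∩ ↑(LRE a (w + 1) 0 h)) (w + 1, y') v →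
      ¬ LL h F v ∧ Reach (↑(F \ KK S h F) ∩ ↑(LRE a (w + 1) 0 h)) (w + 1, y') v := by
    intro v hv
    induction hv with
    | refl => exact ⟨hend, Reach.refl _ _⟩
    | @tail v v' hv hs ih =>
      obtain ⟨ih1, ih2⟩ := ih
      obtain ⟨e, ⟨he1, he2⟩, hc⟩ := hs
      have hv' : ¬ LL h F v' := by
        rintro ⟨y0, hy0, hr⟩
        refine ih1 ⟨y0, hy0, hr.trans (Adj.reach ?_)⟩
        exact Adj.symm ⟨e, he1, hc⟩
      have heK : e ∉ KK S h F := by
        rw [mem_KK]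
        rintro ⟨-, h5 | h5⟩
        · rcases hc with ⟨h6, h7⟩ | ⟨h6, h7⟩
          · rw [h6] at h5; exact ih1 h5
          · rw [h6] at h5; exact hv' h5
        · rcases hc with ⟨h6, h7⟩ | ⟨h6, h7⟩
          · rw [h7] at h5; exact hv' h5
          · rw [h7] at h5; exact ih1 h5
      refine ⟨hv', ih2.trans (Adj.reach ⟨e, ⟨?_, he2⟩, hc⟩)⟩
      rw [Finset.coe_sdiff]
      exact ⟨he1, fun h5 => heK (Finset.mem_coe.mp h5)⟩
  exact (key _ h4).2

/-- Harnack inequality for the increments. -/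
theorem harnack {q : ℝ} (h0 : 0 ≤ q) (h1 : q ≤ 1) {a w h : ℤ} (ha : 0 ≤ a) (haw : a < w) :
    (1 - hh q (w + 1 - a) h) * (hh q w h - hh q (w + 1) h) ≤
      hh q (w - a) h - hh q (w + 1 - a) h := by
  have ok := okq h0 h1
  obtain ⟨S, hS⟩ : ∃ S : Finset Edg, S = LRE 0 (w + 1) 0 h := ⟨_, rfl⟩
  have s0 : LRE 0 w 0 h ⊆ S := by
    rw [hS]
    rintro ⟨x, y, _ | _⟩ he
    · simp only [mem_LRE_false] at he ⊢; omega
    · simp only [mem_LRE_true] at he ⊢; omega
  have s1 : LRE a (w + 1) 0 h ⊆ S := by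
    rw [hS]
    rintro ⟨x, y, _ | _⟩ he
    · simp only [mem_LRE_false] at he ⊢; omega
    · simp only [mem_LRE_true] at he ⊢; omega
  have s2 : LRE a w 0 h ⊆ S := by
    rw [hS]
    rintro ⟨x, y, _ | _⟩ he
    · simp only [mem_LRE_false] at he ⊢; omega
    · simp only [mem_LRE_true] at he ⊢; omega
  have eX : Pr (fun _ => q) S (LRc 0 w 0 h) = hh q w h := by
    rw [pr_LRc q s0]; simp
  have eY : Pr (fun _ => q) S (LRc 0 (w + 1) 0 h) = hh q (w + 1) h := by
    rw [pr_LRc q (by rw [hS])]; simp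
  have eZ : Pr (fun _ => q) S (LRc a (w + 1) 0 h) = hh q (w + 1 - a) h := by
    rw [pr_LRc q s1]; simp
  have eW : Pr (fun _ => q) S (LRc a w 0 h) = hh q (w - a) h := by
    rw [pr_LRc q s2]; simp
  have split : ∀ A B : Finset Edg → Prop, Pr (fun _ => q) S A =
      Pr (fun _ => q) S (fun F => A F ∧ B F) + Pr (fun _ => q) S (fun F => A F ∧ ¬ B F) := by
    intro A B
    unfold Pr
    rw [← Ex_add]
    apply Ex_congr
    intro F _
    rw [ind_and, ind_and, ind_not]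
    ring
  -- the increments as probabilities
  have i1 : Pr (fun _ => q) S (fun F => LRc 0 w 0 h F ∧ ¬ LRc 0 (w + 1) 0 h F) =
      hh q w h - hh q (w + 1) h := by
    have h2 := split (LRc 0 w 0 h) (LRc 0 (w + 1) 0 h)
    have h3 : Pr (fun _ => q) S (fun F => LRc 0 w 0 h F ∧ LRc 0 (w + 1) 0 h F) =
        Pr (fun _ => q) S (LRc 0 (w + 1) 0 h) := by
      apply Pr_congr
      intro F _
      exact ⟨fun h4 => h4.2, fun h4 => ⟨LRc_sub le_rfl (by omega) (by omega) le_rfl le_rfl h4, h4⟩⟩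
    rw [h3, eX, eY] at h2
    linarith
  have i2 : Pr (fun _ => q) S (fun F => LRc a w 0 h F ∧ ¬ LRc a (w + 1) 0 h F) =
      hh q (w - a) h - hh q (w + 1 - a) h := by
    have h2 := split (LRc a w 0 h) (LRc a (w + 1) 0 h)
    have h3 : Pr (fun _ => q) S (fun F => LRc a w 0 h F ∧ LRc a (w + 1) 0 h F) =
        Pr (fun _ => q) S (LRc a (w + 1) 0 h) := by
      apply Pr_congr
      intro F _
      exact ⟨fun h4 => h4.2, fun h4 => ⟨LRc_sub le_rfl (by omega) (by omega) le_rfl le_rfl h4, h4⟩⟩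
    rw [h3, eW, eZ] at h2
    linarith
  -- the Markov property
  have m1 : Pr (fun _ => q) S (fun F => (LRc 0 w 0 h F ∧ ¬ LRc 0 (w + 1) 0 h F) ∧
      LRc a (w + 1) 0 h (F \ KK S h F)) ≤ hh q (w + 1 - a) h *
      Pr (fun _ => q) S (fun F => LRc 0 w 0 h F ∧ ¬ LRc 0 (w + 1) 0 h F) := by
    apply pr_markov ok (KK S h) (fun F _ e he => (mem_KK.mp he).1)
      (fun F F' hF hF' hK => KK_agree hF hF' hK)
      (fun F => LRc 0 w 0 h F ∧ ¬ LRc 0 (w + 1) 0 h F) ?_
      (fun _ G => LRc a (w + 1) 0 h G) ?_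
    · intro F F' hF hF' hK
      have hw : 0 < w := by omega
      rw [hS] at hF hF'
      rw [LRc_iff hw (by omega) hF, LRc_iff (b := w + 1) (by omega) le_rfl hF,
        LRc_iff hw (by omega) hF', LRc_iff (b := w + 1) (by omega) le_rfl hF']
      rw [← hS] at hF hF'
      have e1 := LL_agree hF hF' hK
      simp only [e1]
      exact id
    · intro k hk
      rw [← eZ]
      exact Pr_mono_set ok Finset.sdiff_subset (LRc_incr _ _ _ _ _)
  have m2 : Pr (fun _ => q) S (fun F => (LRc 0 w 0 h F ∧ ¬ LRc 0 (w + 1) 0 h F) ∧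
      LRc a (w + 1) 0 h F) ≤ Pr (fun _ => q) S (fun F => (LRc 0 w 0 h F ∧
        ¬ LRc 0 (w + 1) 0 h F) ∧ LRc a (w + 1) 0 h (F \ KK S h F)) := by
    apply Pr_mono ok
    rintro F hF ⟨⟨h2, h3⟩, h4⟩
    refine ⟨⟨h2, h3⟩, ?_⟩
    apply avoid hF _ h4
    rwa [LRc_iff (b := w + 1) (w := w + 1) (by omega) le_rfl (by rw [← hS]; exact hF)] at h3
  have m3 := split (fun F => LRc 0 w 0 h F ∧ ¬ LRc 0 (w + 1) 0 h F) (LRc a (w + 1) 0 h)
  have m4 : Pr (fun _ => q) S (fun F => (LRc 0 w 0 h F ∧ ¬ LRc 0 (w + 1) 0 h F) ∧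
      ¬ LRc a (w + 1) 0 h F) ≤
      Pr (fun _ => q) S (fun F => LRc a w 0 h F ∧ ¬ LRc a (w + 1) 0 h F) := by
    apply Pr_mono ok
    rintro F hF ⟨⟨h2, h3⟩, h4⟩
    exact ⟨LRc_sub ha haw le_rfl le_rfl le_rfl h2, h4⟩
  rw [i1] at m1 m3
  rw [i2] at m4
  have m5 := m2.trans m1
  have m6 : (1 - hh q (w + 1 - a) h) * (hh q w h - hh q (w + 1) h) =
      (hh q w h - hh q (w + 1) h) - hh q (w + 1 - a) h * (hh q w h - hh q (w + 1) h) := by ring
  rw [m6]
  generalize Pr (fun _ => q) S (fun F => (LRc 0 w 0 h F ∧ ¬ LRc 0 (w + 1) 0 h F) ∧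
      LRc a (w + 1) 0 h F) = P0 at m3 m5
  generalize Pr (fun _ => q) S (fun F => (LRc 0 w 0 h F ∧ ¬ LRc 0 (w + 1) 0 h F) ∧
      ¬ LRc a (w + 1) 0 h F) = P2 at m3 m4
  generalize hh q (w + 1 - a) h * (hh q w h - hh q (w + 1) h) = R at m5 ⊢
  clear m1 m2
  linarith

/-- Two disjoint blocks. -/
theorem hh_mul {q : ℝ} (h0 : 0 ≤ q) (h1 : q ≤ 1) {a b h : ℤ} (ha : 0 < a) (hb : 0 < b) :
    hh q (a + b) h ≤ hh q a h * hh q b h := by
  have ok := okq h0 h1
  obtain ⟨S, hS⟩ : ∃ S : Finset Edg, S = LRE 0 (a + b) 0 h := ⟨_, rfl⟩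
  have s0 : LRE 0 a 0 h ⊆ S := by
    rw [hS]
    rintro ⟨x, y, _ | _⟩ he
    · simp only [mem_LRE_false] at he ⊢; omega
    · simp only [mem_LRE_true] at he ⊢; omega
  have s1 : LRE a (a + b) 0 h ⊆ S := by
    rw [hS]
    rintro ⟨x, y, _ | _⟩ he
    · simp only [mem_LRE_false] at he ⊢; omega
    · simp only [mem_LRE_true] at he ⊢; omega
  have hd : Disjoint (LRE 0 a 0 h) (LRE a (a + b) 0 h) := by
    rw [Finset.disjoint_left]
    rintro ⟨x, y, _ | _⟩ he1 he2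
    · simp only [mem_LRE_false] at he1 he2; omega
    · simp only [mem_LRE_true] at he1 he2; omega
  have e1 : Pr (fun _ => q) S (LRc 0 a 0 h) = hh q a h := by
    rw [pr_LRc q s0]; simp
  have e2 : Pr (fun _ => q) S (LRc a (a + b) 0 h) = hh q b h := by
    rw [pr_LRc q s1]; simp
  have e3 : Pr (fun _ => q) S (LRc 0 (a + b) 0 h) = hh q (a + b) h := by
    rw [pr_LRc q (by rw [hS])]; simp
  have e4 := Pr_indep (p := fun _ => q) s0 s1 hd (A := LRc 0 a 0 h) (B := LRc a (a + b) 0 h)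
    (fun F _ => LRc_local (Finset.Subset.refl _)) (fun F _ => LRc_local (Finset.Subset.refl _))
  have e5 : Pr (fun _ => q) S (LRc 0 (a + b) 0 h) ≤
      Pr (fun _ => q) S (fun F => LRc 0 a 0 h F ∧ LRc a (a + b) 0 h F) := by
    apply Pr_mono ok
    intro F _ hF
    exact ⟨LRc_sub le_rfl (by omega) (by omega) le_rfl le_rfl hF,
      LRc_sub (by omega) (by omega) le_rfl le_rfl le_rfl hF⟩
  rw [e4, e1, e2, e3] at e5
  exact e5

end Pool.Agent.W424.AR
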