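import Pool.Agent.W424.AR.Harnack

/-!
The order of the increments of the crossing probabilities of rectangles.
-/

set_option maxHeartbeats 1000000

namespace Pool.Agent.W424.AR

open H974 Finset

/-- Increments in the width. -/
noncomputable def DD (w h : ℤ) : ℝ := hh (1/2) w h - hh (1/2) (w + 1) h

theorem DD_nonneg {w : ℤ} (h : ℤ) (hw : 1 ≤ w) : 0 ≤ DD w h := by
  unfold DD
  have := hh_mono (q := 1/2) (by norm_num) (by norm_num) (w := w + 1) (w' := w) (h := h) (h' := h)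
    (by omega) (by omega) le_rfl
  linarith

theorem har {w w' h : ℤ} (hw : 1 ≤ w) (hww : w ≤ w') :
    (1 - hh (1/2) (w + 1) h) * DD w' h ≤ DD w h := by
  have h1 := harnack (q := 1/2) (by norm_num) (by norm_num) (a := w' - w) (w := w') (h := h)
    (by omega) (by omega)
  have e1 : w' + 1 - (w' - w) = w + 1 := by ring
  have e2 : w' - (w' - w) = w := by ring
  rw [e1, e2] at h1
  exact h1

theorem sum_low {w h : ℤ} (hw : 1 ≤ w) (N : ℕ) :
    (1 - hh (1/2) (w + 1) h) * (hh (1/2) w h - hh (1/2) (w + N) h) ≤ N * DD w h := by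
  induction N with
  | zero => simp
  | succ N ih =>
    have h1 := har (w := w) (w' := w + N) (h := h) hw (by omega)
    unfold DD at h1 ih ⊢
    push_cast
    have e1 : w + ((N:ℤ) + 1) = w + N + 1 := by ring
    rw [e1]
    have e2 : (1 - hh (1/2) (w + 1) h) * (hh (1/2) w h - hh (1/2) (w + N + 1) h) =
        (1 - hh (1/2) (w + 1) h) * (hh (1/2) w h - hh (1/2) (w + N) h) +
        (1 - hh (1/2) (w + 1) h) * (hh (1/2) (w + N) h - hh (1/2) (w + N + 1) h) := by ring
    rw [e2]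
    have e3 : ((N:ℝ) + 1) * (hh (1/2) w h - hh (1/2) (w + 1) h) =
        N * (hh (1/2) w h - hh (1/2) (w + 1) h) + (hh (1/2) w h - hh (1/2) (w + 1) h) := by ring
    rw [e3]
    exact add_le_add ih h1

theorem low_explicit {w h : ℤ} (hw : 1 ≤ w) (h0 : 0 ≤ h) :
    hh (1/2) w h * (1 - hh (1/2) (w + 1) h) ≤ 2 * ((h:ℝ) + 1) * DD w h := by
  obtain ⟨N, hN⟩ : ∃ N : ℕ, (N:ℤ) = h + 1 := ⟨(h + 1).toNat, by omega⟩
  have h1 := sum_low (h := h) hw N
  have h2 := hh_mul (q := 1/2) (by norm_num) (by norm_num) (a := w) (b := h + 1) (h := h)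
    (by omega) (by omega)
  rw [hh_half h h0] at h2
  rw [hN] at h1
  have hNr : (N:ℝ) = (h:ℝ) + 1 := by exact_mod_cast hN
  rw [hNr] at h1
  have h3 : 0 ≤ 1 - hh (1/2) (w + 1) h := by
    have := hh_le_one (q := 1/2) (by norm_num) (by norm_num) (w + 1) h
    linarith
  generalize hh (1/2) (w + (h + 1)) h = X at h1 h2
  generalize hh (1/2) (w + 1) h = Y at h1 h3 ⊢
  generalize hh (1/2) w h = Z at h1 h2 ⊢
  generalize DD w h = D at h1 ⊢
  nlinarith [mul_le_mul_of_nonneg_left h2 h3]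

theorem sum_up {w m h : ℤ} (hm : 1 ≤ m) (N : ℕ) (hN : m + N ≤ w + 1) :
    N * (DD w h * (1 - hh (1/2) (m + 1) h)) ≤ hh (1/2) m h - hh (1/2) (m + N) h := by
  induction N with
  | zero => simp
  | succ N ih =>
    have ih' := ih (by push_cast at hN; omega)
    have h1 := har (w := m + N) (w' := w) (h := h) (by omega) (by push_cast at hN; omega)
    have h2 : hh (1/2) (m + N + 1) h ≤ hh (1/2) (m + 1) h :=
      hh_mono (by norm_num) (by norm_num) (by omega) (by omega) le_rfl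
    have h3 := DD_nonneg (w := w) h (by omega)
    have h4 : DD w h * (1 - hh (1/2) (m + 1) h) ≤ DD w h * (1 - hh (1/2) (m + N + 1) h) :=
      mul_le_mul_of_nonneg_left (by linarith) h3
    have h5 : DD (m + N) h = hh (1/2) (m + N) h - hh (1/2) (m + N + 1) h := rfl
    rw [h5] at h1
    push_cast
    have e1 : m + ((N:ℤ) + 1) = m + N + 1 := by ring
    rw [e1]
    have e3 : ((N:ℝ) + 1) * (DD w h * (1 - hh (1/2) (m + 1) h)) =
        N * (DD w h * (1 - hh (1/2) (m + 1) h)) + DD w h * (1 - hh (1/2) (m + 1) h) := by ring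
    rw [e3]
    have e4 : (1 - hh (1/2) (m + N + 1) h) * DD w h = DD w h * (1 - hh (1/2) (m + N + 1) h) := by
      ring
    rw [e4] at h1
    linarith

/-- RSW. -/
theorem rsw (K : ℕ) (hK : 1 ≤ K) : ∃ c : ℝ, 0 < c ∧ c ≤ 1 ∧ ∀ w h : ℤ, 1 ≤ w → 1 ≤ h → w ≤ K * h →
    c ≤ hh (1/2) w h := by
  obtain ⟨c, C, hc, hC, hlow⟩ := Pool.Agent.W424.NC.win_lower K hK
  refine ⟨min c 1, lt_min hc one_pos, min_le_right _ _, ?_⟩
  intro w h hw hh1 hwh
  refine (min_le_left _ _).trans ?_
  have hKz : (1:ℤ) ≤ K := by exact_mod_cast hK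
  obtain ⟨w', hw'⟩ : ∃ w' : ℕ, (w':ℤ) = w := ⟨w.toNat, by omega⟩
  obtain ⟨g, hg⟩ : ∃ g : ℕ, (g:ℤ) = min h (K * w) :=
    ⟨(min h (K * w)).toNat, by
      have : 0 ≤ (K:ℤ) * w := by positivity
      omega⟩
  have hKw : w ≤ K * w := by nlinarith
  have hg1 : 1 ≤ (g:ℤ) := by rw [hg]; exact le_min hh1 (by omega)
  have hg2 : (w':ℤ) ≤ K * g := by
    rw [hw', hg]
    rcases le_total h (K * w) with h1 | h1
    · rw [min_eq_left h1]; exact hwh
    · rw [min_eq_right h1]; nlinarith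
  have hg3 : (g:ℤ) ≤ K * w' := by rw [hw', hg]; exact min_le_right _ _
  have h1 := hlow (1/2) (by norm_num) le_rfl w' g (by omega) (by omega) (by exact_mod_cast hg2)
    (by exact_mod_cast hg3)
  rw [sub_self, Real.zero_rpow (by norm_num), mul_zero, mul_zero, neg_zero, Real.exp_zero,
    mul_one] at h1
  refine h1.trans ?_
  have h2 : (g:ℤ) ≤ h := by rw [hg]; exact min_le_left _ _
  exact hh_mono (by norm_num) (by norm_num) (by omega) (by omega) h2

theorem dualhalf {w h : ℤ} (hw : 0 < w) (h0 : 0 ≤ h) :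
    1 - hh (1/2) w h = hh (1/2) (h + 1) (w - 1) := by
  have h1 := hh_dual (q := 1/2) hw h0
  have e1 : (1:ℝ) - 1/2 = 1/2 := by norm_num
  rw [e1] at h1
  linarith

/-- Complementary RSW. -/
theorem rsw_dual (K : ℕ) (hK : 1 ≤ K) : ∃ c : ℝ, 0 < c ∧ ∀ w h : ℤ, 2 ≤ w → 0 ≤ h →
    h ≤ K * w → c ≤ 1 - hh (1/2) w h := by
  obtain ⟨c, hc, -, hr⟩ := rsw (2 * K + 1) (by omega)
  refine ⟨c, hc, ?_⟩
  intro w h hw h0 hwh
  rw [dualhalf (by omega) h0]
  apply hr (h + 1) (w - 1) (by omega) (by omega)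
  have hKz : (1:ℤ) ≤ K := by exact_mod_cast hK
  push_cast
  nlinarith

/-- The order of the increments in the width. -/
theorem order (K : ℕ) (hK : 1 ≤ K) : ∃ c C : ℝ, 0 < c ∧ 0 < C ∧ ∀ w h : ℤ, 1 ≤ w → 1 ≤ h →
    h ≤ K * w → c * hh (1/2) w h / h ≤ DD w h ∧ DD w h ≤ C * hh (1/2) w h / h := by
  obtain ⟨c1, hc1, hd⟩ := rsw_dual (2 * K) (by omega)
  obtain ⟨c2, hc2, hc21, hr⟩ := rsw 2 (by norm_num)
  have hKz : (1:ℤ) ≤ K := by exact_mod_cast hK
  have hKr : (1:ℝ) ≤ K := by exact_mod_cast hK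
  refine ⟨c1 / 4, 4 * K / (c1 * c2) + 2 / (c2 * c2), by positivity, by positivity, ?_⟩
  intro w h hw hh1 hwh
  have hhr : (1:ℝ) ≤ (h:ℝ) := by exact_mod_cast hh1
  have hwr : (1:ℝ) ≤ (w:ℝ) := by exact_mod_cast hw
  have hh0 : 0 ≤ hh (1/2) w h := hh_nonneg (by norm_num) (by norm_num) _ _
  have hD := DD_nonneg (w := w) h hw
  constructor
  · have h1 := low_explicit (h := h) hw (by omega)
    have h2 := hd (w + 1) h (by omega) (by omega) (by push_cast; nlinarith)
    rw [div_le_iff₀ (by linarith)]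
    have h3 : hh (1/2) w h * c1 ≤ hh (1/2) w h * (1 - hh (1/2) (w + 1) h) :=
      mul_le_mul_of_nonneg_left h2 hh0
    have h4 : 2 * ((h:ℝ) + 1) * DD w h ≤ 4 * h * DD w h :=
      mul_le_mul_of_nonneg_right (by linarith) hD
    linarith
  · rw [le_div_iff₀ (by linarith)]
    have hK1 : 0 ≤ 4 * K / (c1 * c2) := by positivity
    have hK2 : 0 ≤ 2 / (c2 * c2) := by positivity
    rcases le_or_gt (2 * h) w with hc | hc
    · -- long rectangles
      obtain ⟨N, hN⟩ : ∃ N : ℕ, (N:ℤ) = h := ⟨h.toNat, by omega⟩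
      have hNr : (N:ℝ) = (h:ℝ) := by exact_mod_cast hN
      have h1 := sum_up (w := w) (m := w - h + 1) (h := h) (by omega) N (by omega)
      rw [hNr] at h1
      have h2 : hh (1/2) (w - h + 1 + 1) h ≤ 1/2 := by
        have h3 := hh_mono (q := 1/2) (by norm_num) (by norm_num) (w := w - h + 1 + 1)
          (w' := h + 1) (h := h) (h' := h) (by omega) (by omega) le_rfl
        rw [hh_half h (by omega)] at h3
        exact h3
      have h3 : 0 ≤ hh (1/2) (w - h + 1 + N) h := hh_nonneg (by norm_num) (by norm_num) _ _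
      have h4 := hh_glue (q := 1/2) (by norm_num) (by norm_num) (w1 := w - h + 1) (w2 := 2 * h)
        (v := h) (h := h) (by omega) (by omega) (by omega) (by omega)
      have e1 : w - h + 1 + 2 * h - h = w + 1 := by ring
      rw [e1] at h4
      have h5 := hr (2 * h) h (by omega) hh1 (by push_cast; omega)
      have h6 := hr h h hh1 hh1 (by push_cast; omega)
      have h7 : hh (1/2) (w + 1) h ≤ hh (1/2) w h :=
        hh_mono (by norm_num) (by norm_num) (by omega) (by omega) le_rfl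
      have h8 : 0 ≤ hh (1/2) (w - h + 1) h := hh_nonneg (by norm_num) (by norm_num) _ _
      have h9 : hh (1/2) (w - h + 1) h * (c2 * c2) ≤ hh (1/2) w h := by
        refine le_trans ?_ (h4.trans h7)
        rw [mul_assoc]
        exact mul_le_mul_of_nonneg_left (mul_le_mul h5 h6 hc2.le (hc2.le.trans h5)) h8
      have h10 : DD w h * (1/2) ≤ DD w h * (1 - hh (1/2) (w - h + 1 + 1) h) :=
        mul_le_mul_of_nonneg_left (by linarith) hD
      have h11 : (h:ℝ) * (DD w h * (1/2)) ≤ hh (1/2) (w - h + 1) h := by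
        have := mul_le_mul_of_nonneg_left h10 (by linarith : (0:ℝ) ≤ (h:ℝ))
        linarith
      have h12 : hh (1/2) (w - h + 1) h ≤ hh (1/2) w h / (c2 * c2) := by
        rw [le_div_iff₀ (by positivity)]; exact h9
      have h13 : hh (1/2) w h / (c2 * c2) * 2 = 2 / (c2 * c2) * hh (1/2) w h := by ring
      have h14 : 0 ≤ 4 * K / (c1 * c2) * hh (1/2) w h := mul_nonneg hK1 hh0
      rw [add_mul]
      nlinarith
    · -- bounded aspect ratio
      obtain ⟨m, hm⟩ : ∃ m : ℤ, m = (w + 1) / 2 := ⟨_, rfl⟩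
      have hm1 : 1 ≤ m := by omega
      obtain ⟨N, hN⟩ : ∃ N : ℕ, (N:ℤ) = w + 1 - m := ⟨(w + 1 - m).toNat, by omega⟩
      have h1 := sum_up (w := w) (m := m) (h := h) hm1 N (by omega)
      have h2 := hd (m + 1) h (by omega) (by omega) (by
        have h2m : w ≤ 2 * m := by omega
        push_cast
        nlinarith)
      have h3 : hh (1/2) m h ≤ 1 := hh_le_one (by norm_num) (by norm_num) _ _
      have h4 : 0 ≤ hh (1/2) (m + N) h := hh_nonneg (by norm_num) (by norm_num) _ _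
      have h5 := hr w h hw hh1 (by push_cast; omega)
      have h6 : (N:ℝ) * (DD w h * c1) ≤ 1 := by
        have h7 : DD w h * c1 ≤ DD w h * (1 - hh (1/2) (m + 1) h) :=
          mul_le_mul_of_nonneg_left h2 hD
        have h8 := mul_le_mul_of_nonneg_left h7 (Nat.cast_nonneg (α := ℝ) N)
        linarith
      have h7 : (w:ℝ) ≤ 2 * N := by
        have : w ≤ 2 * (N:ℤ) := by omega
        exact_mod_cast this
      have h8 : (h:ℝ) ≤ K * w := by exact_mod_cast hwh
      have h9 : (h:ℝ) ≤ 2 * K * N := by nlinarith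
      have h10 : (h:ℝ) * (DD w h * c1) ≤ 2 * K := by
        have h11 := mul_le_mul_of_nonneg_right h9 (mul_nonneg hD hc1.le)
        have h12 : 2 * (K:ℝ) * N * (DD w h * c1) = 2 * K * (N * (DD w h * c1)) := by ring
        rw [h12] at h11
        have h13 := mul_le_mul_of_nonneg_left h6 (by positivity : (0:ℝ) ≤ 2 * K)
        linarith
      have h11 : DD w h * h * (c1 * c2) ≤ 4 * K * hh (1/2) w h := by
        have h12 : DD w h * h * (c1 * c2) = (h * (DD w h * c1)) * c2 := by ring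
        rw [h12]
        calc (h * (DD w h * c1)) * c2 ≤ (2 * K) * c2 := mul_le_mul_of_nonneg_right h10 hc2.le
          _ ≤ (2 * K) * hh (1/2) w h := mul_le_mul_of_nonneg_left h5 (by positivity)
          _ ≤ 4 * K * hh (1/2) w h := by nlinarith
      have h12 : DD w h * h ≤ 4 * K / (c1 * c2) * hh (1/2) w h := by
        rw [div_mul_eq_mul_div, le_div_iff₀ (by positivity)]
        exact h11
      have h14 : 0 ≤ 2 / (c2 * c2) * hh (1/2) w h := mul_nonneg hK2 hh0
      rw [add_mul]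
      linarith

end Pool.Agent.W424.AR
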